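import Pool.Agent.MP_6a6beb_pr.Defs

-- part MP_6a6beb_pr.Urn
section

/-!
Subtree sizes of the uniform attachment tree: first and second moments.
-/

namespace Pool.Agent.MP_6a6beb_pr

open Finset Function

/-- The parent function attached to a choice. -/
def ext {n : ℕ} (ω : Choice n) (v : ℕ) : ℕ :=
  if h : 1 ≤ v ∧ v ≤ n then (ω ⟨v - 1, by omega⟩).val else 0

/-- Expectation under the uniform choice. -/
noncomputable def E (n : ℕ) (f : (ℕ → ℕ) → ℝ) : ℝ :=
  (∑ ω : Choice n, f (ext ω)) / Fintype.card (Choice n)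

lemma card_choice_pos (n : ℕ) : (0 : ℝ) < Fintype.card (Choice n) := by
  have : Nonempty (Choice n) := ⟨fun _ => 0⟩
  exact_mod_cast Fintype.card_pos

lemma E_add (n : ℕ) (f g : (ℕ → ℕ) → ℝ) : E n (fun p => f p + g p) = E n f + E n g := by
  simp [E, sum_add_distrib, add_div]

lemma E_sub (n : ℕ) (f g : (ℕ → ℕ) → ℝ) : E n (fun p => f p - g p) = E n f - E n g := by
  simp [E, sum_sub_distrib, sub_div]

lemma E_mul (n : ℕ) (c : ℝ) (f : (ℕ → ℕ) → ℝ) : E n (fun p => c * f p) = c * E n f := by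
  simp [E, ← mul_sum, mul_div_assoc]

lemma E_const (n : ℕ) (c : ℝ) : E n (fun _ => c) = c := by
  have := (card_choice_pos n).ne'
  simp only [E, sum_const, card_univ, nsmul_eq_mul]
  field_simp

lemma E_sum (n : ℕ) {ι : Type*} (s : Finset ι) (f : ι → (ℕ → ℕ) → ℝ) :
    E n (fun p => ∑ i ∈ s, f i p) = ∑ i ∈ s, E n (f i) := by
  simp only [E]
  rw [sum_comm, sum_div]

lemma E_mono (n : ℕ) {f g : (ℕ → ℕ) → ℝ} (h : ∀ p, f p ≤ g p) : E n f ≤ E n g := by
  unfold E
  have := card_choice_pos n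
  gcongr
  exact h _

lemma E_nonneg (n : ℕ) {f : (ℕ → ℕ) → ℝ} (h : ∀ p, 0 ≤ f p) : 0 ≤ E n f := by
  have := E_mono n (f := fun _ => 0) h
  rwa [E_const] at this

lemma ext_snoc {n : ℕ} (ω : Choice n) (x : Fin (n + 1)) :
    ext (Fin.snoc (α := fun i : Fin (n + 1) => Fin (i.val + 1)) ω x : Choice (n + 1)) =
      update (ext ω) (n + 1) x.val := by
  funext v
  by_cases h : v = n + 1
  · subst h
    rw [update_self, ext, dif_pos ⟨by omega, le_rfl⟩]
    exact congrArg Fin.val
      (Fin.snoc_last (α := fun i : Fin (n + 1) => Fin (i.val + 1)) x ω)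
  · rw [update_of_ne h, ext, ext]
    by_cases h2 : 1 ≤ v ∧ v ≤ n
    · rw [dif_pos ⟨h2.1, by omega⟩, dif_pos h2]
      exact congrArg Fin.val
        (Fin.snoc_castSucc (α := fun i : Fin (n + 1) => Fin (i.val + 1)) x ω ⟨v - 1, by omega⟩)
    · rw [dif_neg (by omega), dif_neg h2]

lemma E_succ (n : ℕ) (f : (ℕ → ℕ) → ℝ) :
    E (n + 1) f = E n (fun p => (∑ j ∈ range (n + 1), f (update p (n + 1) j)) / (n + 1)) := by
  let e : Fin (n + 1) × Choice n ≃ Choice (n + 1) :=
    Fin.snocEquiv (fun i : Fin (n + 1) => Fin (i.val + 1))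
  have h1 : ∑ ω : Choice (n + 1), f (ext ω) =
      ∑ ω : Choice n, ∑ j ∈ range (n + 1), f (update (ext ω) (n + 1) j) := by
    rw [← e.sum_comp, Fintype.sum_prod_type_right]
    refine sum_congr rfl fun ω _ => ?_
    rw [← Fin.sum_univ_eq_sum_range (fun j => f (update (ext ω) (n + 1) j))]
    refine sum_congr rfl fun x _ => ?_
    rw [← ext_snoc]
    rfl
  have h2 : Fintype.card (Choice (n + 1)) = (n + 1) * Fintype.card (Choice n) := by
    rw [← Fintype.card_congr e, Fintype.card_prod, Fintype.card_fin]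
  have := (card_choice_pos n).ne'
  unfold E
  rw [h1, h2, ← sum_div]
  push_cast
  field_simp

/-- The subtree of `i` at time `m`. -/
def S (p : ℕ → ℕ) (i : ℕ) : ℕ → Finset ℕ
  | 0 => if i = 0 then {0} else ∅
  | m + 1 => if m + 1 = i ∨ p (m + 1) ∈ S p i m then insert (m + 1) (S p i m) else S p i m

/-- The size of the subtree of `i` at time `m`. -/
def X (p : ℕ → ℕ) (i m : ℕ) : ℕ := (S p i m).card

lemma S_subset (p : ℕ → ℕ) (i m : ℕ) : S p i m ⊆ range (m + 1) := by
  induction m with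
  | zero => simp only [S]; split_ifs <;> simp
  | succ m ih =>
    have : S p i m ⊆ range (m + 1 + 1) := ih.trans (range_mono (by omega))
    simp only [S]
    split_ifs
    · exact insert_subset (by simp) this
    · exact this

lemma X_le (p : ℕ → ℕ) (i m : ℕ) : X p i m ≤ m + 1 := by
  simpa [X] using card_le_card (S_subset p i m)

lemma S_update (p : ℕ → ℕ) (i m k j : ℕ) (h : m < k) : S (update p k j) i m = S p i m := by
  induction m with
  | zero => simp only [S]
  | succ m ih => simp only [S, ih (by omega), update_of_ne (show m + 1 ≠ k by omega)]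

lemma S_of_lt (p : ℕ → ℕ) (i m : ℕ) (h : m < i) : S p i m = ∅ := by
  induction m with
  | zero => simp only [S]; rw [if_neg (by omega)]
  | succ m ih =>
    simp only [S, ih (by omega)]
    rw [if_neg]
    simp only [notMem_empty, or_false]
    omega

lemma S_self (p : ℕ → ℕ) (i : ℕ) : S p i i = {i} := by
  cases i with
  | zero => simp [S]
  | succ i => simp [S, S_of_lt p (i + 1) i (by omega)]

lemma mem_S_succ (p : ℕ → ℕ) (i m v : ℕ) :
    v ∈ S p i (m + 1) ↔ v ∈ S p i m ∨ (v = m + 1 ∧ (m + 1 = i ∨ p (m + 1) ∈ S p i m)) := by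
  simp only [S]
  split_ifs with h
  · simp only [mem_insert, h, and_true]
    tauto
  · simp [h]

lemma mem_S_of_le (p : ℕ → ℕ) (i v m : ℕ) (h : v ≤ m) : v ∈ S p i m ↔ v ∈ S p i v := by
  induction m, h using Nat.le_induction with
  | base => rfl
  | succ m h ih =>
    rw [mem_S_succ, ih]
    constructor
    · rintro (h1 | ⟨h1, -⟩)
      · exact h1
      · omega
    · exact Or.inl

lemma X_update (p : ℕ → ℕ) (i m j : ℕ) (h : i ≤ m) :
    X (update p (m + 1) j) i (m + 1) = if j ∈ S p i m then X p i m + 1 else X p i m := by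
  have h1 : m + 1 ∉ S p i m := fun h => by simpa using S_subset p i m h
  simp only [X, S, S_update p i m (m + 1) j (by omega), update_self]
  have : ¬ (m + 1 = i) := by omega
  simp only [this, false_or]
  split_ifs
  · exact card_insert_of_notMem h1
  · rfl

lemma sum_ite_S (s : Finset ℕ) (m : ℕ) (hs : s ⊆ range (m + 1)) (a b : ℝ) :
    ∑ j ∈ range (m + 1), (if j ∈ s then a else b) = s.card * a + (m + 1 - s.card) * b := by
  have : ∀ j, (if j ∈ s then a else b) = b + (if j ∈ s then a - b else 0) := by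
    intro j
    split_ifs <;> ring
  simp_rw [this]
  rw [sum_add_distrib, sum_ite_mem, inter_eq_right.2 hs]
  simp only [sum_const, card_range, nsmul_eq_mul]
  push_cast
  ring

/-- One step of the urn. -/
noncomputable def step (m : ℕ) (G : ℕ → ℝ) (x : ℕ) : ℝ :=
  G x + (x : ℝ) / (m + 1) * (G (x + 1) - G x)

lemma avg_update (p : ℕ → ℕ) (i m : ℕ) (h : i ≤ m) (G : ℕ → ℝ) :
    (∑ j ∈ range (m + 1), G (X (update p (m + 1) j) i (m + 1))) / (m + 1) =
      step m G (X p i m) := by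
  simp_rw [X_update p i m _ h, apply_ite G]
  rw [sum_ite_S _ _ (S_subset p i m), step]
  have : (m : ℝ) + 1 ≠ 0 := by positivity
  simp only [X]
  field_simp
  ring

/-- `k` steps of the urn, started at time `m`. -/
noncomputable def steps (G : ℕ → ℝ) : ℕ → ℕ → ℕ → ℝ
  | 0, _ => G
  | k + 1, m => step m (steps G k (m + 1))

/-- Functionals that depend only on the choices up to time `m`. -/
def Dep (m : ℕ) (h : (ℕ → ℕ) → ℝ) : Prop := ∀ p k j, m < k → h (update p k j) = h p

lemma E_steps (G : ℕ → ℝ) (i : ℕ) (k : ℕ) : ∀ (m : ℕ), i ≤ m → ∀ h : (ℕ → ℕ) → ℝ, Dep m h →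
    E (m + k) (fun p => h p * G (X p i (m + k))) = E m (fun p => h p * steps G k m (X p i m)) := by
  induction k with
  | zero => intro m _ h _; rfl
  | succ k ih =>
    intro m hm h hd
    have e : m + (k + 1) = (m + 1) + k := by omega
    rw [e, ih (m + 1) (by omega) h (fun p k j hk => hd p k j (by omega)), E_succ]
    congr 1
    funext p
    simp_rw [hd p (m + 1) _ (by omega)]
    rw [← mul_sum, mul_div_assoc, avg_update p i m hm]
    rfl

lemma steps_nonneg (G : ℕ → ℝ) (hG : ∀ x, 0 ≤ G x) (k : ℕ) :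
    ∀ m x, x ≤ m + 1 → 0 ≤ steps G k m x := by
  induction k with
  | zero => intro m x _; exact hG x
  | succ k ih =>
    intro m x hx
    have h1 := ih (m + 1) x (by omega)
    have h2 := ih (m + 1) (x + 1) (by omega)
    have h3 : (x : ℝ) / (m + 1) ≤ 1 := by
      rw [div_le_one (by positivity)]
      exact_mod_cast hx
    have h4 : 0 ≤ (x : ℝ) / (m + 1) := by positivity
    simp only [steps, step]
    nlinarith

lemma steps_mono (G : ℕ → ℝ) (hG : ∀ x, G x ≤ G (x + 1)) (k : ℕ) :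
    ∀ m x, x ≤ m → steps G k m x ≤ steps G k m (x + 1) := by
  induction k with
  | zero => intro m x _; exact hG x
  | succ k ih =>
    intro m x hx
    have h1 := ih (m + 1) x (by omega)
    have h2 := ih (m + 1) (x + 1) (by omega)
    have h3 : (x : ℝ) / (m + 1) ≤ 1 := by
      rw [div_le_one (by positivity)]
      exact_mod_cast (by omega : x ≤ m + 1)
    have h4 : 0 ≤ ((x + 1 : ℕ) : ℝ) / (m + 1) := by positivity
    simp only [steps, step]
    nlinarith

lemma disjoint_S (p : ℕ → ℕ) (i j : ℕ) (hij : i ≤ j) (h : j ∉ S p i j) (m : ℕ) (hm : j ≤ m) :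
    Disjoint (S p i m) (S p j m) := by
  induction m, hm using Nat.le_induction with
  | base => rw [S_self]; simpa using h
  | succ m hm ih =>
    rw [disjoint_left] at ih ⊢
    intro v h1 h2
    have n1 : m + 1 ∉ S p i m := fun h => by simpa using S_subset p i m h
    have n2 : m + 1 ∉ S p j m := fun h => by simpa using S_subset p j m h
    rw [mem_S_succ] at h1 h2
    rcases h1 with h1 | ⟨h1, h1'⟩ <;> rcases h2 with h2 | ⟨h2, h2'⟩
    · exact ih h1 h2
    · exact n1 (h2 ▸ h1)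
    · exact n2 (h1 ▸ h2)
    · rcases h1' with h1' | h1'
      · omega
      rcases h2' with h2' | h2'
      · omega
      exact ih h1' h2'

lemma avg_update_two (p : ℕ → ℕ) (i j m : ℕ) (hi : i ≤ m) (hj : j ≤ m)
    (hd : Disjoint (S p i m) (S p j m)) (G : ℕ → ℝ)
    (h1 : G (X p i m) ≤ G (X p i m + 1)) (h2 : G (X p j m) ≤ G (X p j m + 1)) :
    (∑ l ∈ range (m + 1), G (X (update p (m + 1) l) i (m + 1)) *
      G (X (update p (m + 1) l) j (m + 1))) / (m + 1) ≤
      step m G (X p i m) * step m G (X p j m) := by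
  set x := X p i m
  set y := X p j m
  have key : ∀ l, G (X (update p (m + 1) l) i (m + 1)) * G (X (update p (m + 1) l) j (m + 1)) =
      G x * G y + (if l ∈ S p i m then (G (x + 1) - G x) * G y else 0) +
        (if l ∈ S p j m then G x * (G (y + 1) - G y) else 0) := by
    intro l
    rw [X_update p i m l hi, X_update p j m l hj]
    by_cases a : l ∈ S p i m <;> by_cases b : l ∈ S p j m
    · exact absurd b (disjoint_left.1 hd a)
    all_goals
      simp only [a, b, if_true, if_false]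
      ring
  simp_rw [key]
  rw [sum_add_distrib, sum_add_distrib, sum_ite_S _ _ (S_subset p i m),
    sum_ite_S _ _ (S_subset p j m)]
  simp only [sum_const, card_range, nsmul_eq_mul, mul_zero, add_zero, step]
  have hm : (0 : ℝ) < m + 1 := by positivity
  have e1 : ((S p i m).card : ℝ) = x := rfl
  have e2 : ((S p j m).card : ℝ) = y := rfl
  rw [e1, e2]
  have : 0 ≤ ((x : ℝ) / (m + 1) * (G (x + 1) - G x)) * ((y : ℝ) / (m + 1) * (G (y + 1) - G y)) := by
    have := sub_nonneg.2 h1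
    have := sub_nonneg.2 h2
    positivity
  have e3 : (((m + 1 : ℕ) : ℝ) * (G x * G y) + x * ((G (x + 1) - G x) * G y) +
      y * (G x * (G (y + 1) - G y))) / (m + 1) =
      G x * G y + (x : ℝ) / (m + 1) * (G (x + 1) - G x) * G y +
        G x * ((y : ℝ) / (m + 1) * (G (y + 1) - G y)) := by
    push_cast
    field_simp
  rw [e3]
  nlinarith

lemma E_steps_two (G : ℕ → ℝ) (hG : ∀ x, G x ≤ G (x + 1)) (i j : ℕ) (hij : i ≤ j) (k : ℕ) :
    ∀ (m : ℕ), j ≤ m →
    E (m + k) (fun p => (if j ∈ S p i j then 0 else 1) *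
        (G (X p i (m + k)) * G (X p j (m + k)))) ≤
      E m (fun p => (if j ∈ S p i j then 0 else 1) *
        (steps G k m (X p i m) * steps G k m (X p j m))) := by
  induction k with
  | zero => intro m _; exact le_rfl
  | succ k ih =>
    intro m hm
    have e : m + (k + 1) = (m + 1) + k := by omega
    rw [e]
    refine (ih (m + 1) (by omega)).trans ?_
    rw [E_succ]
    apply E_mono
    intro p
    simp_rw [S_update p i j (m + 1) _ (by omega)]
    by_cases h : j ∈ S p i j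
    · simp [h]
    · simp only [h, if_false, one_mul]
      exact avg_update_two p i j m (by omega) hm (disjoint_S p i j hij h m hm) _
        (steps_mono G hG k _ _ (X_le p i m)) (steps_mono G hG k _ _ (X_le p j m))

lemma X_self (p : ℕ → ℕ) (i : ℕ) : X p i i = 1 := by simp [X, S_self]

lemma E_G_eq (G : ℕ → ℝ) (j k : ℕ) : E (j + k) (fun p => G (X p j (j + k))) = steps G k j 1 := by
  have := E_steps G j k j le_rfl (fun _ => 1) (fun _ _ _ _ => rfl)
  simp only [one_mul, X_self, E_const] at this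
  exact this

lemma E_X (i m : ℕ) (h : i ≤ m) : E m (fun p => (X p i m : ℝ)) = (m + 1) / (i + 1) := by
  induction m, h using Nat.le_induction with
  | base =>
    simp only [X_self, E_const]
    field_simp
    simp
  | succ m h ih =>
    rw [E_succ]
    simp_rw [avg_update _ i m h (fun x => (x : ℝ))]
    have : ∀ x : ℕ, step m (fun x => (x : ℝ)) x = ((m + 2 : ℝ) / (m + 1)) * x := by
      intro x
      simp only [step]
      push_cast
      field_simp
      ring
    simp_rw [this]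
    rw [E_mul, ih]
    push_cast
    field_simp
    ring

lemma E_mem (i j : ℕ) (h : i < j) :
    E j (fun p => if j ∈ S p i j then (1 : ℝ) else 0) = 1 / (i + 1) := by
  obtain ⟨m, rfl⟩ : ∃ m, j = m + 1 := ⟨j - 1, by omega⟩
  rw [E_succ]
  have : ∀ p : ℕ → ℕ, (∑ l ∈ range (m + 1),
      (if m + 1 ∈ S (update p (m + 1) l) i (m + 1) then (1 : ℝ) else 0)) / (m + 1) =
      (1 / (m + 1 : ℝ)) * X p i m := by
    intro p
    have n1 : m + 1 ∉ S p i m := fun h => by simpa using S_subset p i m h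
    have h2 : ∀ l, m + 1 ∈ S (update p (m + 1) l) i (m + 1) ↔ l ∈ S p i m := by
      intro l
      rw [mem_S_succ, S_update p i m (m + 1) l (by omega), update_self]
      have : ¬ (m + 1 = i) := by omega
      simp [n1, this]
    simp_rw [h2]
    rw [sum_ite_S _ _ (S_subset p i m)]
    simp only [X]
    ring
  simp_rw [this]
  rw [E_mul, E_X i m (by omega)]
  field_simp

/-- Covariance bound. -/
lemma cov_le (G : ℕ → ℝ) (hG : ∀ x, G x ≤ G (x + 1)) (h0 : ∀ x, 0 ≤ G x) (h1 : ∀ x, G x ≤ 1)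
    (i j n : ℕ) (hij : i < j) (hn : j ≤ n) :
    E n (fun p => G (X p i n) * G (X p j n)) ≤
      E n (fun p => G (X p i n)) * E n (fun p => G (X p j n)) +
        1 / (i + 1) * E n (fun p => G (X p j n)) := by
  obtain ⟨k, rfl⟩ := Nat.exists_eq_add_of_le hn
  have a1 := E_steps_two G hG i j hij.le k j le_rfl
  have a2 := E_steps G j k j le_rfl (fun p => if j ∈ S p i j then (1 : ℝ) else 0)
    (fun p l r hl => by simp only [S_update p i j l r hl])
  have a3 := E_steps G i k j hij.le (fun _ => 1) (fun _ _ _ _ => rfl)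
  simp only [one_mul] at a3
  rw [E_G_eq G j k]
  have g0 : 0 ≤ steps G k j 1 := steps_nonneg G h0 k j 1 (by omega)
  simp only [X_self] at a1 a2
  have b1 : E j (fun p => (if j ∈ S p i j then 0 else 1) *
      (steps G k j (X p i j) * steps G k j 1)) ≤
      E (j + k) (fun p => G (X p i (j + k))) * steps G k j 1 := by
    rw [a3, mul_comm, ← E_mul]
    apply E_mono
    intro p
    have := steps_nonneg G h0 k j _ (X_le p i j)
    split_ifs
    · rw [zero_mul]; positivity
    · rw [one_mul, mul_comm]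
  have b2 : E j (fun p => (if j ∈ S p i j then (1 : ℝ) else 0) * steps G k j 1) =
      1 / (i + 1) * steps G k j 1 := by
    simp_rw [mul_comm _ (steps G k j 1)]
    rw [E_mul, E_mem i j hij]
  refine le_trans ?_ (add_le_add (a1.trans b1) (a2.trans b2).le)
  rw [← E_add]
  apply E_mono
  intro p
  have c1 := h0 (X p i (j + k))
  have c2 := h0 (X p j (j + k))
  have c3 := h1 (X p i (j + k))
  split_ifs
  · nlinarith
  · nlinarith

end Pool.Agent.MP_6a6beb_pr

end

-- part MP_6a6beb_pr.Mean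
section

/-!
The law of a subtree size, and the variance of the number of large subtrees.
-/

namespace Pool.Agent.MP_6a6beb_pr

open Finset Function

/-- Indicator of `a ≤ x`. -/
noncomputable def F (a x : ℕ) : ℝ := if a ≤ x then 1 else 0

lemma F_nonneg (a x : ℕ) : 0 ≤ F a x := by unfold F; split_ifs <;> norm_num

lemma F_le_one (a x : ℕ) : F a x ≤ 1 := by unfold F; split_ifs <;> norm_num

lemma F_mono (a x : ℕ) : F a x ≤ F a (x + 1) := by
  unfold F
  split_ifs <;> first | omega | norm_num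

lemma F_mul_self (a x : ℕ) : F a x * F a x = F a x := by unfold F; split_ifs <;> norm_num

/-- Falling factorial. -/
noncomputable def Q (N : ℝ) (i : ℕ) : ℝ := ∏ l ∈ range i, (N - l)

lemma Q_succ (N : ℝ) (i : ℕ) : Q N (i + 1) = Q N i * (N - i) := prod_range_succ _ _

lemma Q_succ' (N : ℝ) (i : ℕ) : Q (N + 1) (i + 1) = (N + 1) * Q N i := by
  unfold Q
  rw [prod_range_succ', mul_comm]
  congr 1
  · simp
  · refine prod_congr rfl fun l _ => ?_
    push_cast
    ring

lemma Q_pos (n i : ℕ) (h : i ≤ n) : 0 < Q n i := by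
  refine prod_pos fun l hl => ?_
  have : l < n := lt_of_lt_of_le (mem_range.1 hl) h
  have : (l : ℝ) < n := by exact_mod_cast this
  linarith

/-- The probability that the subtree of `i` has at least `a` vertices at time `n`. -/
noncomputable def q (n a i : ℕ) : ℝ := Q ((n : ℝ) + 1 - a) i / Q n i

lemma step_F (n a x : ℕ) :
    step n (F (a + 1)) x = (1 - (a : ℝ) / (n + 1)) * F (a + 1) x + (a : ℝ) / (n + 1) * F a x := by
  unfold step F
  rcases lt_trichotomy x a with h | h | h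
  · rw [if_neg (by omega), if_neg (by omega), if_neg (by omega)]; ring
  · subst h
    rw [if_neg (by omega), if_pos (by omega), if_pos (by omega)]; ring
  · rw [if_pos (by omega), if_pos (by omega), if_pos (by omega)]; ring

lemma E_F (i n : ℕ) (h : i ≤ n) :
    ∀ a, 1 ≤ a → a ≤ n + 1 → E n (fun p => F a (X p i n)) = q n a i := by
  induction n, h using Nat.le_induction with
  | base =>
    intro a h1 h2
    simp only [X_self, E_const, q, F]
    split_ifs with h
    · have : a = 1 := by omega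
      subst this
      have := (Q_pos i i le_rfl).ne'
      simp [this]
    · symm
      rw [div_eq_zero_iff]
      left
      apply prod_eq_zero (i := i + 1 - a) (mem_range.2 (by omega))
      rw [Nat.cast_sub h2]
      push_cast
      ring
  | succ n h ih =>
    intro a h1 h2
    obtain ⟨a, rfl⟩ : ∃ b, a = b + 1 := ⟨a - 1, by omega⟩
    rw [E_succ]
    simp_rw [avg_update _ i n h (F (a + 1)), step_F]
    rw [E_add, E_mul, E_mul]
    have hn : (n : ℝ) + 1 ≠ 0 := by positivity
    have key : q (n + 1) (a + 1) i =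
        (1 - (a : ℝ) / (n + 1)) * q n (a + 1) i + (a : ℝ) / (n + 1) * q n a i := by
      cases i with
      | zero => simp [q, Q]
      | succ i =>
        have e1 : ((n + 1 : ℕ) : ℝ) + 1 - ((a + 1 : ℕ) : ℝ) = ((n : ℝ) - a) + 1 := by
          push_cast; ring
        have e2 : (n : ℝ) + 1 - ((a + 1 : ℕ) : ℝ) = (n : ℝ) - a := by push_cast; ring
        have e3 : (n : ℝ) + 1 - a = ((n : ℝ) - a) + 1 := by ring
        have e4 : ((n + 1 : ℕ) : ℝ) = (n : ℝ) + 1 := by push_cast; ring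
        unfold q
        rw [e1, e2, e3, e4, Q_succ', Q_succ', Q_succ, Q_succ]
        have p1 := (Q_pos n i (by omega)).ne'
        have p2 : (n : ℝ) - i ≠ 0 := by
          have : (i : ℝ) < n := by exact_mod_cast (by omega : i < n)
          linarith
        field_simp
        ring
    rw [key]
    rcases Nat.eq_zero_or_pos a with rfl | ha
    · rw [ih 1 le_rfl (by omega)]
      simp
    · rw [ih a ha (by omega)]
      by_cases ha' : a + 1 ≤ n + 1
      · rw [ih (a + 1) (by omega) ha']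
      · have : a = n + 1 := by omega
        subst this
        have : (1 - ((n + 1 : ℕ) : ℝ) / (n + 1)) = 0 := by
          push_cast
          field_simp
          ring
        rw [this, zero_mul, zero_mul]

lemma q_nonneg (n a i : ℕ) (h : i ≤ n) (h1 : 1 ≤ a) (h2 : a ≤ n + 1) : 0 ≤ q n a i := by
  rw [← E_F i n h a h1 h2]
  exact E_nonneg n fun p => F_nonneg _ _

lemma q_succ (n a i : ℕ) : q n a (i + 1) = q n a i * (((n : ℝ) + 1 - a - i) / (n - i)) := by
  unfold q
  rw [Q_succ, Q_succ, mul_div_mul_comm]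

lemma q_le (n a : ℕ) (h1 : 1 ≤ a) (h2 : a ≤ n + 1) (i : ℕ) (h : i ≤ n) :
    q n a i ≤ (1 - ((a : ℝ) - 1) / n) ^ i := by
  induction i with
  | zero => simp [q, Q]
  | succ i ih =>
    have hi : (i : ℝ) < n := by exact_mod_cast (by omega : i < n)
    have hi0 : (0 : ℝ) ≤ i := by positivity
    have ha1 : (1 : ℝ) ≤ a := by exact_mod_cast h1
    have ha2 : (a : ℝ) ≤ n + 1 := by exact_mod_cast h2
    have hn : (0 : ℝ) < n := by linarith
    have e : 1 - ((a : ℝ) - 1) / n = (n + 1 - a) / n := by field_simp; ring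
    have b1 : ((n : ℝ) + 1 - a - i) / (n - i) ≤ 1 - ((a : ℝ) - 1) / n := by
      rw [e, div_le_div_iff₀ (by linarith) hn]
      nlinarith
    have b2 : 0 ≤ 1 - ((a : ℝ) - 1) / n := by
      rw [e]
      exact div_nonneg (by linarith) hn.le
    rw [q_succ, pow_succ]
    calc _ ≤ q n a i * (1 - ((a : ℝ) - 1) / n) :=
          mul_le_mul_of_nonneg_left b1 (q_nonneg n a i (by omega) h1 h2)
      _ ≤ _ := mul_le_mul_of_nonneg_right (ih (by omega)) b2

lemma sum_q (n a k : ℕ) (h : k ≤ n) :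
    (a : ℝ) * ∑ i ∈ range k, q n a i = n + 1 - q n a k * (n + 1 - k) := by
  induction k with
  | zero => simp [q, Q]
  | succ k ih =>
    have hk : (n : ℝ) - k ≠ 0 := by
      have : (k : ℝ) < n := by exact_mod_cast (by omega : k < n)
      linarith
    rw [sum_range_succ, mul_add, ih (by omega), q_succ]
    push_cast
    have : (n : ℝ) + 1 - (k + 1) = n - k := by ring
    rw [this]
    field_simp
    ring

/-- The number of `i ∈ I` whose subtree has at least `a` vertices. -/
noncomputable def M (I : Finset ℕ) (a n : ℕ) (p : ℕ → ℕ) : ℝ := ∑ i ∈ I, F a (X p i n)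

lemma E_M (I : Finset ℕ) (a n : ℕ) (hI : I ⊆ range (n + 1)) (h1 : 1 ≤ a) (h2 : a ≤ n + 1) :
    E n (M I a n) = ∑ i ∈ I, q n a i := by
  unfold M
  rw [E_sum]
  exact sum_congr rfl fun i hi => E_F i n (by simpa [Nat.lt_succ_iff] using hI hi) a h1 h2

lemma double_sum_le (θ : ℝ) (h0 : 0 < θ) (h1 : θ ≤ 1) (N : ℕ) :
    ∑ i ∈ range N, ∑ j ∈ range N, (if i < j then (1 - θ) ^ j / (i + 1) else 0) ≤
      -Real.log θ / θ := by
  have hρ0 : 0 ≤ 1 - θ := by linarith
  have hρ1 : 1 - θ < 1 := by linarith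
  have a1 : ∀ i ∈ range N, ∑ j ∈ range N, (if i < j then (1 - θ) ^ j / (i + 1) else 0) ≤
      (1 - θ) ^ (i + 1) / (i + 1) / θ := by
    intro i _
    rw [← sum_filter, ← sum_div]
    have : filter (fun j => i < j) (range N) = Ico (i + 1) N := by
      ext j
      simp only [mem_filter, mem_range, mem_Ico]
      omega
    rw [this, div_right_comm]
    have h := geom_sum_Ico_le_of_lt_one (m := i + 1) (n := N) hρ0 hρ1
    rw [sub_sub_cancel] at h
    gcongr
  refine (sum_le_sum a1).trans ?_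
  rw [← sum_div]
  have h := Real.hasSum_pow_div_log_of_abs_lt_one (x := 1 - θ) (by rwa [abs_of_nonneg hρ0])
  rw [sub_sub_cancel] at h
  gcongr
  exact sum_le_hasSum _ (fun i _ => by positivity) h

/-- The variance bound. -/
noncomputable def V (θ : ℝ) : ℝ := (1 - 2 * Real.log θ) / θ

lemma var_le (I : Finset ℕ) (a n : ℕ) (hI : I ⊆ range (n + 1)) (h1 : 2 ≤ a) (h2 : a ≤ n + 1) :
    E n (fun p => (M I a n p - ∑ i ∈ I, q n a i) ^ 2) ≤ V (((a : ℝ) - 1) / n) := by
  set θ := ((a : ℝ) - 1) / n with hθ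
  have ha1 : (2 : ℝ) ≤ a := by exact_mod_cast h1
  have ha2 : (a : ℝ) ≤ n + 1 := by exact_mod_cast h2
  have hn : (0 : ℝ) < n := by linarith
  have θ0 : 0 < θ := div_pos (by linarith) hn
  have θ1 : θ ≤ 1 := by rw [hθ, div_le_one hn]; linarith
  have hρ0 : 0 ≤ 1 - θ := by linarith
  set μ := ∑ i ∈ I, q n a i with hμ
  have hle : ∀ i ∈ I, i ≤ n := fun i hi => by simpa [Nat.lt_succ_iff] using hI hi
  have e1 : E n (fun p => (M I a n p - μ) ^ 2) =
      ∑ i ∈ I, ∑ j ∈ I, (E n (fun p => F a (X p i n) * F a (X p j n)) - q n a i * q n a j) := by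
    have : ∀ p, (M I a n p - μ) ^ 2 =
        (∑ i ∈ I, ∑ j ∈ I, F a (X p i n) * F a (X p j n)) + ((-2 * μ) * M I a n p + μ ^ 2) := by
      intro p
      rw [← sum_mul_sum]
      unfold M
      ring
    simp_rw [this]
    rw [E_add, E_add, E_mul, E_const, E_M I a n hI (by omega) h2, E_sum]
    simp_rw [E_sum, sum_sub_distrib]
    rw [← sum_mul_sum, ← hμ]
    ring
  rw [e1]
  have cov : ∀ i ∈ I, ∀ j ∈ I, i < j →
      E n (fun p => F a (X p i n) * F a (X p j n)) - q n a i * q n a j ≤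
        (1 - θ) ^ j / (i + 1) := by
    intro i hi j hj hij
    have := cov_le (F a) (F_mono a) (F_nonneg a) (F_le_one a) i j n hij (hle j hj)
    rw [E_F i n (hle i hi) a (by omega) h2, E_F j n (hle j hj) a (by omega) h2] at this
    have h3 := q_le n a (by omega) h2 j (hle j hj)
    have h4 : 1 / ((i : ℝ) + 1) * q n a j ≤ (1 - θ) ^ j / (i + 1) := by
      rw [one_div_mul_eq_div]
      gcongr
    linarith
  have e2 : ∀ i ∈ I, ∀ j ∈ I,
      E n (fun p => F a (X p i n) * F a (X p j n)) - q n a i * q n a j ≤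
        (if i < j then (1 - θ) ^ j / (i + 1) else 0) + (if j < i then (1 - θ) ^ i / (j + 1) else 0)
          + (if i = j then (1 - θ) ^ i else 0) := by
    intro i hi j hj
    rcases lt_trichotomy i j with h | h | h
    · rw [if_pos h, if_neg (by omega), if_neg (by omega)]
      simpa using cov i hi j hj h
    · subst h
      simp only [lt_irrefl, if_false, if_true, F_mul_self, zero_add]
      rw [E_F i n (hle i hi) a (by omega) h2]
      have h3 := q_le n a (by omega) h2 i (hle i hi)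
      nlinarith [mul_self_nonneg (q n a i)]
    · rw [if_neg (by omega), if_pos h, if_neg (by omega)]
      have := cov j hj i hi h
      simp_rw [mul_comm (F a (X _ j n))] at this
      rw [mul_comm (q n a j)] at this
      simpa using this
  have nn : ∀ i j : ℕ, 0 ≤ (if i < j then (1 - θ) ^ j / (i + 1) else 0) +
      (if j < i then (1 - θ) ^ i / (j + 1) else 0) + (if i = j then (1 - θ) ^ i else 0) := by
    intro i j
    split_ifs <;> positivity
  calc _ ≤ ∑ i ∈ I, ∑ j ∈ I, ((if i < j then (1 - θ) ^ j / (i + 1) else 0) +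
          (if j < i then (1 - θ) ^ i / (j + 1) else 0) + (if i = j then (1 - θ) ^ i else 0)) :=
        sum_le_sum fun i hi => sum_le_sum fun j hj => e2 i hi j hj
    _ ≤ ∑ i ∈ range (n + 1), ∑ j ∈ range (n + 1), ((if i < j then (1 - θ) ^ j / (i + 1) else 0) +
          (if j < i then (1 - θ) ^ i / (j + 1) else 0) + (if i = j then (1 - θ) ^ i else 0)) := by
        refine (sum_le_sum fun i _ =>
          sum_le_sum_of_subset_of_nonneg hI fun j _ _ => nn i j).trans ?_
        exact sum_le_sum_of_subset_of_nonneg hI fun i _ _ => sum_nonneg fun j _ => nn i j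
    _ ≤ -Real.log θ / θ + -Real.log θ / θ + 1 / θ := by
        simp_rw [sum_add_distrib]
        refine add_le_add (add_le_add (double_sum_le θ θ0 θ1 _) ?_) ?_
        · rw [sum_comm]
          exact double_sum_le θ θ0 θ1 _
        · simp_rw [sum_ite_eq]
          have h := geom_sum_Ico_le_of_lt_one (m := 0) (n := n + 1) hρ0 (by linarith)
          rw [sub_sub_cancel, pow_zero, ← range_eq_Ico] at h
          refine le_trans (le_of_eq (sum_congr rfl fun i hi => if_pos hi)) h
    _ = V θ := by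
        unfold V
        ring

lemma V_anti {θ θ' : ℝ} (h0 : 0 < θ) (h : θ ≤ θ') (h1 : θ' ≤ 1) : V θ' ≤ V θ := by
  unfold V
  have a1 : Real.log θ ≤ Real.log θ' := Real.log_le_log h0 h
  have a2 : Real.log θ' ≤ 0 := Real.log_nonpos (by linarith) h1
  gcongr
  linarith

open Classical in
lemma cheb (I : Finset ℕ) (a n : ℕ) (hI : I ⊆ range (n + 1)) (h1 : 2 ≤ a) (h2 : a ≤ n + 1)
    (s : ℝ) (hs : 0 < s) :
    E n (fun p => if s ≤ |M I a n p - ∑ i ∈ I, q n a i| then 1 else 0) ≤
      V (((a : ℝ) - 1) / n) / s ^ 2 := by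
  have := var_le I a n hI h1 h2
  rw [le_div_iff₀ (by positivity), mul_comm, ← E_mul]
  refine le_trans (E_mono n fun p => ?_) this
  split_ifs with h
  · rw [mul_one, ← sq_abs (M I a n p - _)]
    gcongr
  · rw [mul_zero]
    positivity

end Pool.Agent.MP_6a6beb_pr

end

-- part MP_6a6beb_pr.Graph
section

/-!
Centrality versus subtree size.
-/

namespace Pool.Agent.MP_6a6beb_pr

open Finset Function

lemma ext_lt {n : ℕ} (ω : Choice n) (v : ℕ) (h1 : 1 ≤ v) (h2 : v ≤ n) : ext ω v < v := by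
  rw [ext, dif_pos ⟨h1, h2⟩]
  have := (ω ⟨v - 1, by omega⟩).isLt
  simp only at this
  omega

lemma rel_iff {n : ℕ} (ω : Choice n) (u v : Fin (n + 1)) :
    (∃ i : Fin n, u.val = i.val + 1 ∧ v.val = (ω i).val) ↔ 1 ≤ u.val ∧ v.val = ext ω u := by
  constructor
  · rintro ⟨i, h1, h2⟩
    have hi := i.isLt
    refine ⟨by omega, ?_⟩
    rw [ext, dif_pos ⟨by omega, by omega⟩, h2]
    have : (⟨u.val - 1, by omega⟩ : Fin n) = i := Fin.ext (by simp only; omega)
    exact congrArg (fun j : Fin n => (ω j).val) this.symm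
  · rintro ⟨h1, h2⟩
    have hu := u.isLt
    refine ⟨⟨u.val - 1, by omega⟩, by simp only; omega, ?_⟩
    rw [h2, ext, dif_pos ⟨h1, by omega⟩]

lemma mem_S_parent {n : ℕ} (ω : Choice n) (v w : ℕ) (h1 : 1 ≤ w) (h2 : w ≤ n) (h : w ≠ v) :
    w ∈ S (ext ω) v n ↔ ext ω w ∈ S (ext ω) v n := by
  have hlt := ext_lt ω w h1 h2
  obtain ⟨m, rfl⟩ : ∃ m, w = m + 1 := ⟨w - 1, by omega⟩
  have n1 : m + 1 ∉ S (ext ω) v m := fun h => by simpa using S_subset _ v m h
  rw [mem_S_of_le _ v (m + 1) n h2, mem_S_succ, mem_S_of_le _ v (ext ω (m + 1)) n (by omega),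
    mem_S_of_le _ v (ext ω (m + 1)) m (by omega)]
  simp [n1, h]

lemma self_mem_S (p : ℕ → ℕ) (v n : ℕ) (h : v ≤ n) : v ∈ S p v n := by
  rw [mem_S_of_le p v v n h, S_self]
  simp

lemma ncard_eq_image {n : ℕ} {P : Fin (n + 1) → Prop} (s : Set {u : Fin (n + 1) // P u}) :
    s.ncard = ((fun u => u.1.val) '' s).ncard :=
  (Set.ncard_image_of_injective s (fun _ _ h => Subtype.ext (Fin.ext h))).symm

lemma card_compl_S (p : ℕ → ℕ) (v n : ℕ) : (range (n + 1) \ S p v n).card = n + 1 - X p v n := by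
  rw [card_sdiff_of_subset (S_subset p v n), card_range, X]

lemma le_centrality {n : ℕ} (ω : Choice n) (v : Fin (n + 1)) (hv : 1 ≤ v.val) :
    n + 1 - X (ext ω) v n ≤ centrality (tree ω) v := by
  have h0 : (0 : Fin (n + 1)) ∈ {u | u ≠ v} := by
    intro h
    rw [← h] at hv
    simp at hv
  set G := (tree ω).induce {u | u ≠ v} with hG
  have key : ∀ (k : ℕ) (hk : k < n + 1) (hne : (⟨k, hk⟩ : Fin (n + 1)) ∈ {u | u ≠ v}),
      k ∉ S (ext ω) v n → G.Reachable ⟨⟨k, hk⟩, hne⟩ ⟨0, h0⟩ := by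
    intro k
    induction k using Nat.strong_induction_on with
    | _ k ih =>
      intro hk hne hS
      rcases Nat.eq_zero_or_pos k with rfl | hpos
      · rfl
      · have hlt := ext_lt ω k hpos (by omega)
        have hkv : k ≠ v.val := fun h => hne (Fin.ext h)
        have hS' : ext ω k ∉ S (ext ω) v n := by
          rwa [← mem_S_parent ω v k hpos (by omega) hkv]
        have hne' : (⟨ext ω k, by omega⟩ : Fin (n + 1)) ∈ {u | u ≠ v} := by
          intro h
          apply hS'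
          have : ext ω k = v.val := congrArg Fin.val h
          rw [this]
          exact self_mem_S _ _ _ (by omega)
        refine SimpleGraph.Reachable.trans (SimpleGraph.Adj.reachable ?_)
          (ih (ext ω k) hlt (by omega) hne' hS')
        simp only [hG, SimpleGraph.comap_adj, Function.Embedding.subtype_apply, tree,
          SimpleGraph.fromRel_adj, rel_iff]
        refine ⟨fun h => ?_, Or.inl ⟨hpos, trivial⟩⟩
        have : k = ext ω k := congrArg Fin.val h
        omega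
  refine le_trans ?_ (le_ciSup (f := fun c : G.ConnectedComponent => c.supp.ncard)
    (Finite.bddAbove_range _) (G.connectedComponentMk ⟨0, h0⟩))
  rw [← card_compl_S, ← Set.ncard_coe_finset, ncard_eq_image]
  apply Set.ncard_le_ncard _ (Set.toFinite _)
  intro k hk
  simp only [coe_sdiff, coe_range, Set.mem_sdiff, Set.mem_Iio, mem_coe] at hk
  have hne : (⟨k, hk.1⟩ : Fin (n + 1)) ∈ {u | u ≠ v} := by
    intro h
    apply hk.2
    have : k = v.val := congrArg Fin.val h
    rw [this]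
    exact self_mem_S _ _ _ (by omega)
  exact ⟨⟨⟨k, hk.1⟩, hne⟩, by
    rw [SimpleGraph.ConnectedComponent.mem_supp_iff, SimpleGraph.ConnectedComponent.eq]
    exact key k hk.1 hne hk.2, rfl⟩

lemma centrality_le {n : ℕ} (ω : Choice n) (v : Fin (n + 1)) :
    centrality (tree ω) v ≤ max (n + 1 - X (ext ω) v n) (X (ext ω) v n) := by
  set G := (tree ω).induce {u | u ≠ v} with hG
  have adj : ∀ a b, G.Adj a b → (a.1.val ∈ S (ext ω) v n ↔ b.1.val ∈ S (ext ω) v n) := by
    intro a b hab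
    simp only [hG, SimpleGraph.comap_adj, Function.Embedding.subtype_apply, tree,
      SimpleGraph.fromRel_adj, rel_iff] at hab
    have ha := a.1.isLt
    have hb := b.1.isLt
    rcases hab.2 with ⟨h1, h2⟩ | ⟨h1, h2⟩
    · rw [h2]
      exact mem_S_parent ω v _ h1 (by omega) (fun h => a.2 (Fin.ext h))
    · rw [h2]
      exact (mem_S_parent ω v _ h1 (by omega) (fun h => b.2 (Fin.ext h))).symm
  have reach : ∀ a b, G.Reachable a b →
      (a.1.val ∈ S (ext ω) v n ↔ b.1.val ∈ S (ext ω) v n) := by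
    rintro a b ⟨w⟩
    induction w with
    | nil => rfl
    | cons h _ ih => exact (adj _ _ h).trans ih
  apply ciSup_le'
  intro c
  induction c using SimpleGraph.ConnectedComponent.ind with
  | h a =>
    rw [ncard_eq_image]
    by_cases ha : a.1.val ∈ S (ext ω) v n
    · refine le_trans ?_ (le_max_right _ _)
      rw [X, ← Set.ncard_coe_finset]
      apply Set.ncard_le_ncard _ (Set.toFinite _)
      rintro _ ⟨b, hb, rfl⟩
      rw [SimpleGraph.ConnectedComponent.mem_supp_iff, SimpleGraph.ConnectedComponent.eq] at hb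
      exact (reach _ _ hb).2 ha
    · refine le_trans ?_ (le_max_left _ _)
      rw [← card_compl_S, ← Set.ncard_coe_finset]
      apply Set.ncard_le_ncard _ (Set.toFinite _)
      rintro _ ⟨b, hb, rfl⟩
      rw [SimpleGraph.ConnectedComponent.mem_supp_iff, SimpleGraph.ConnectedComponent.eq] at hb
      simp only [coe_sdiff, coe_range, Set.mem_sdiff, Set.mem_Iio, mem_coe]
      exact ⟨b.1.isLt, fun h => ha ((reach _ _ hb).1 h)⟩

/-- The number of `i ∈ I` whose subtree has at least `a` vertices. -/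
def cnt (I : Finset ℕ) (a n : ℕ) (p : ℕ → ℕ) : ℕ := (I.filter (fun i => a ≤ X p i n)).card

lemma M_eq_cnt (I : Finset ℕ) (a n : ℕ) (p : ℕ → ℕ) : M I a n p = cnt I a n p := by
  unfold M F cnt
  rw [sum_boole]

lemma ncard_eq_image' {n : ℕ} (s : Set (Fin (n + 1))) : s.ncard = (Fin.val '' s).ncard :=
  (Set.ncard_image_of_injective s Fin.val_injective).symm

lemma upper_det {n : ℕ} (ω : Choice n) (σ : Equiv.Perm (Fin (n + 1))) (m K a b : ℕ)
    (hab : a + b ≤ n + 2)
    (h : m + cnt (Ico 1 (n + 1)) b n (ext ω) ≤ cnt (Ico 1 (n + 1)) a n (ext ω)) :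
    (mostCentral (tree ω) σ m ∩ {v | v.val < K}).ncard ≤ 1 + cnt (Ico 1 K) a n (ext ω) := by
  rw [ncard_eq_image']
  have sub : Fin.val '' (mostCentral (tree ω) σ m ∩ {v | v.val < K}) ⊆
      ((insert 0 ((Ico 1 K).filter (fun i => a ≤ X (ext ω) i n)) : Finset ℕ) : Set ℕ) := by
    rintro _ ⟨v, ⟨hv, hvK⟩, rfl⟩
    simp only [coe_insert, coe_filter, mem_Ico, Set.mem_insert_iff, Set.mem_ofPred_eq]
    rcases Nat.eq_zero_or_pos v.val with h0 | h0
    · exact Or.inl h0
    refine Or.inr ⟨⟨h0, hvK⟩, ?_⟩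
    by_contra hlt
    have h1 := le_centrality ω v h0
    have h2 := X_le (ext ω) v n
    apply absurd hv
    simp only [mostCentral, Set.mem_ofPred_eq, not_lt]
    rw [ncard_eq_image']
    have h3 : m ≤ ((Ico 1 (n + 1)).filter (fun i => a ≤ X (ext ω) i n) \
        (Ico 1 (n + 1)).filter (fun i => b ≤ X (ext ω) i n)).card := by
      have := le_card_sdiff ((Ico 1 (n + 1)).filter (fun i => b ≤ X (ext ω) i n))
        ((Ico 1 (n + 1)).filter (fun i => a ≤ X (ext ω) i n))
      unfold cnt at h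
      omega
    refine h3.trans ?_
    rw [← Set.ncard_coe_finset]
    apply Set.ncard_le_ncard _ (Set.toFinite _)
    intro u hu
    simp only [coe_sdiff, coe_filter, mem_Ico, Set.mem_sdiff, Set.mem_ofPred_eq, not_and,
      not_le] at hu
    refine ⟨⟨u, hu.1.1.2⟩, Or.inl ?_, rfl⟩
    have h4 := centrality_le ω ⟨u, hu.1.1.2⟩
    have h5 := hu.2 hu.1.1
    have h6 := hu.1.2
    simp only at h4
    omega
  refine (Set.ncard_le_ncard sub (Set.toFinite _)).trans ?_
  rw [Set.ncard_coe_finset, add_comm]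
  exact card_insert_le _ _

lemma lower_det {n : ℕ} (ω : Choice n) (σ : Equiv.Perm (Fin (n + 1))) (m K a b : ℕ)
    (hab : a + b ≤ n + 2) (hK : K ≤ n + 1) (h : cnt (Ico 1 (n + 1)) a n (ext ω) < m) :
    cnt (Ico 1 K) a n (ext ω) ≤
      (mostCentral (tree ω) σ m ∩ {v | v.val < K}).ncard + cnt (Ico 1 (n + 1)) b n (ext ω) := by
  have h3 : ((Ico 1 K).filter (fun i => a ≤ X (ext ω) i n) \
      (Ico 1 (n + 1)).filter (fun i => b ≤ X (ext ω) i n)).card ≤
      (mostCentral (tree ω) σ m ∩ {v | v.val < K}).ncard := by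
    rw [ncard_eq_image', ← Set.ncard_coe_finset]
    apply Set.ncard_le_ncard _ (Set.toFinite _)
    intro v hv
    simp only [coe_sdiff, coe_filter, mem_Ico, Set.mem_sdiff, Set.mem_ofPred_eq, not_and,
      not_le] at hv
    have hvn : v < n + 1 := by omega
    refine ⟨⟨v, hvn⟩, ⟨?_, hv.1.1.2⟩, rfl⟩
    simp only [mostCentral, Set.mem_ofPred_eq]
    refine lt_of_le_of_lt ?_ h
    have h4 := centrality_le ω ⟨v, hvn⟩
    have h5 := hv.2 ⟨hv.1.1.1, hvn⟩
    have h6 := hv.1.2
    simp only at h4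
    rw [ncard_eq_image']
    have sub : Fin.val '' {u | centrality (tree ω) u < centrality (tree ω) ⟨v, hvn⟩ ∨
        (centrality (tree ω) u = centrality (tree ω) ⟨v, hvn⟩ ∧ σ u < σ ⟨v, hvn⟩)} ⊆
        ((insert 0 (((Ico 1 (n + 1)).filter (fun i => a ≤ X (ext ω) i n)).erase v) : Finset ℕ) :
          Set ℕ) := by
      rintro _ ⟨u, hu, rfl⟩
      simp only [coe_insert, coe_erase, coe_filter, mem_Ico, Set.mem_insert_iff, Set.mem_sdiff,
        Set.mem_ofPred_eq, Set.mem_singleton_iff]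
      rcases Nat.eq_zero_or_pos u.val with h0 | h0
      · exact Or.inl h0
      have h1 := le_centrality ω u h0
      have h2 := X_le (ext ω) u n
      have h7 : centrality (tree ω) u ≤ centrality (tree ω) ⟨v, hvn⟩ := by
        rcases hu with hu | hu
        · exact hu.le
        · exact hu.1.le
      refine Or.inr ⟨⟨⟨h0, u.isLt⟩, by omega⟩, fun h8 => ?_⟩
      have : u = ⟨v, hvn⟩ := Fin.ext h8
      subst this
      simp at hu
    refine (Set.ncard_le_ncard sub (Set.toFinite _)).trans ?_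
    rw [Set.ncard_coe_finset]
    refine (card_insert_le _ _).trans (le_of_eq ?_)
    apply card_erase_add_one
    simp only [mem_filter, mem_Ico]
    exact ⟨⟨hv.1.1.1, hvn⟩, h6⟩
  have := le_card_sdiff ((Ico 1 (n + 1)).filter (fun i => b ≤ X (ext ω) i n))
    ((Ico 1 K).filter (fun i => a ≤ X (ext ω) i n))
  unfold cnt
  omega

end Pool.Agent.MP_6a6beb_pr

end

-- part MP_6a6beb_pr.Main
section

/-!
Asymptotics.
-/

namespace Pool.Agent.MP_6a6beb_pr

open Finset Function Filter Topology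

/-- The size threshold. -/
noncomputable def thr (τ : ℝ) (n : ℕ) : ℕ := ⌊τ * n⌋₊ + 1

lemma tendsto_thr_sub (τ : ℝ) (h : 0 ≤ τ) :
    Tendsto (fun n : ℕ => ((thr τ n : ℝ) - 1) / n) atTop (𝓝 τ) := by
  have := (tendsto_nat_floor_mul_div_atTop h).comp tendsto_natCast_atTop_atTop
  refine this.congr fun n => ?_
  simp [thr]

lemma tendsto_const_div (c : ℝ) : Tendsto (fun n : ℕ => c / (n : ℝ)) atTop (𝓝 0) :=
  tendsto_const_div_atTop_nhds_zero_nat c

lemma tendsto_q (τ : ℝ) (h : 0 ≤ τ) (i : ℕ) :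
    Tendsto (fun n : ℕ => q n (thr τ n) i) atTop (𝓝 ((1 - τ) ^ i)) := by
  induction i with
  | zero => simp [q, Q]
  | succ i ih =>
    simp_rw [q_succ, pow_succ]
    refine ih.mul ?_
    have h1 : Tendsto (fun n : ℕ => (1 - ((thr τ n : ℝ) - 1) / n - (i : ℝ) / n) /
        (1 - (i : ℝ) / n)) atTop (𝓝 ((1 - τ - 0) / (1 - 0))) :=
      ((tendsto_const_nhds.sub (tendsto_thr_sub τ h)).sub (tendsto_const_div _)).div
        (tendsto_const_nhds.sub (tendsto_const_div _)) (by simp)
    simp only [sub_zero, div_one] at h1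
    refine h1.congr' ?_
    filter_upwards [eventually_gt_atTop i] with n hn
    have h2 : (i : ℝ) < n := by exact_mod_cast hn
    have h3 : (0 : ℝ) ≤ i := by positivity
    have h4 : (n : ℝ) ≠ 0 := by linarith
    have h5 : (n : ℝ) - i ≠ 0 := by linarith
    field_simp
    ring

lemma tendsto_partial (τ : ℝ) (h : 0 < τ) (K : ℕ) (hK : 1 ≤ K) :
    Tendsto (fun n : ℕ => ∑ i ∈ Ico 1 K, q n (thr τ n) i) atTop
      (𝓝 ((1 - (1 - τ) ^ K) / τ - 1)) := by
  have h1 := tendsto_finsetSum (Ico 1 K) (fun i _ => tendsto_q τ h.le i)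
  rw [geom_sum_Ico (by linarith) hK] at h1
  have e : (1 - (1 - τ) ^ K) / τ - 1 = ((1 - τ) ^ K - (1 - τ) ^ 1) / (1 - τ - 1) := by
    rw [show 1 - τ - 1 = -τ by ring]
    field_simp
    ring
  rw [e]
  exact h1

lemma tendsto_total (τ : ℝ) (h : 0 < τ) :
    Tendsto (fun n : ℕ => ((n : ℝ) + 1) / thr τ n) atTop (𝓝 (1 / τ)) := by
  have h1 : Tendsto (fun n : ℕ => (1 + 1 / (n : ℝ)) / (((thr τ n : ℝ) - 1) / n + 1 / (n : ℝ)))
      atTop (𝓝 ((1 + 0) / (τ + 0))) :=
    (tendsto_const_nhds.add (tendsto_const_div _)).div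
      ((tendsto_thr_sub τ h.le).add (tendsto_const_div _)) (by simpa using h.ne')
  simp only [add_zero] at h1
  refine h1.congr' ?_
  filter_upwards [eventually_gt_atTop 0] with n hn
  have h4 : (n : ℝ) ≠ 0 := by exact_mod_cast hn.ne'
  have h5 : (thr τ n : ℝ) ≠ 0 := by simp only [thr]; positivity
  have h6 : ((thr τ n : ℝ) - 1) / n + 1 / (n : ℝ) = thr τ n / n := by ring
  rw [h6]
  field_simp

lemma total_bounds (n a : ℕ) (h1 : 1 ≤ a) (h2 : a ≤ n + 1) :
    ((n : ℝ) + 1) / a - 1 ≤ ∑ i ∈ Ico 1 (n + 1), q n a i ∧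
      ∑ i ∈ Ico 1 (n + 1), q n a i ≤ ((n : ℝ) + 1) / a := by
  have e1 := sum_q n a n le_rfl
  have e2 : ∑ i ∈ range n, q n a i + q n a n = 1 + ∑ i ∈ Ico 1 (n + 1), q n a i := by
    rw [← sum_range_succ, range_eq_Ico, sum_eq_sum_Ico_succ_bot (by omega)]
    simp [q, Q]
  have q0 := q_nonneg n a n le_rfl h1 h2
  have q1 : q n a n ≤ 1 := by
    rw [← E_F n n le_rfl a h1 h2]
    have := E_mono n (f := fun p => F a (X p n n)) (g := fun _ => 1) fun p => F_le_one _ _
    rwa [E_const] at this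
  have ha : (1 : ℝ) ≤ a := by exact_mod_cast h1
  constructor
  · rw [sub_le_iff_le_add, div_le_iff₀ (by linarith)]
    nlinarith
  · rw [le_div_iff₀ (by linarith)]
    nlinarith

lemma thr_add_le (τ : ℝ) (h0 : 0 ≤ τ) (h : τ ≤ 1 / 2) (n : ℕ) :
    thr τ n + thr (1 / 2) n ≤ n + 2 := by
  have h1 : (⌊τ * n⌋₊ : ℝ) ≤ τ * n := Nat.floor_le (by positivity)
  have h2 : (⌊(1 / 2 : ℝ) * n⌋₊ : ℝ) ≤ 1 / 2 * n := Nat.floor_le (by positivity)
  have h3 : τ * n ≤ 1 / 2 * n := by gcongr
  have : ((⌊τ * n⌋₊ + ⌊(1 / 2 : ℝ) * n⌋₊ : ℕ) : ℝ) ≤ n := by push_cast; linarith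
  have : ⌊τ * n⌋₊ + ⌊(1 / 2 : ℝ) * n⌋₊ ≤ n := by exact_mod_cast this
  unfold thr
  omega

lemma deviationProb_le (c δ : ℝ) (K n : ℕ) (f : (ℕ → ℕ) → ℝ) (h0 : ∀ p, 0 ≤ f p)
    (h1 : ∀ (ω : Choice n) σ, δ < |ratio c K ω σ - phi c| → 1 ≤ f (ext ω)) :
    deviationProb c δ K n ≤ E n f := by
  classical
  unfold deviationProb E
  rw [Nat.card_eq_fintype_card, Nat.card_eq_fintype_card, Fintype.card_subtype, Fintype.card_prod]
  have c1 := card_choice_pos n
  have c2 : (0 : ℝ) < Fintype.card (Equiv.Perm (Fin (n + 1))) := by exact_mod_cast Fintype.card_pos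
  push_cast
  rw [div_le_div_iff₀ (by positivity) c1, ← sum_boole, Fintype.sum_prod_type]
  have : ∑ ω : Choice n, ∑ σ : Equiv.Perm (Fin (n + 1)),
      (if δ < |ratio c K ω σ - phi c| then (1 : ℝ) else 0) ≤
      (∑ ω : Choice n, f (ext ω)) * Fintype.card (Equiv.Perm (Fin (n + 1))) := by
    rw [sum_mul]
    refine sum_le_sum fun ω _ => ?_
    rw [← card_univ, mul_comm, ← nsmul_eq_mul, ← sum_const]
    refine sum_le_sum fun σ _ => ?_
    split_ifs with h
    · exact h1 ω σ h
    · exact h0 _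
  calc _ ≤ (∑ ω : Choice n, f (ext ω)) * Fintype.card (Equiv.Perm (Fin (n + 1))) *
        Fintype.card (Choice n) := by gcongr
    _ = _ := by ring

lemma deviationProb_nonneg (c δ : ℝ) (K n : ℕ) : 0 ≤ deviationProb c δ K n := by
  unfold deviationProb
  positivity

lemma ite_lt (A B C D : Prop) [Decidable A] [Decidable B] [Decidable C] [Decidable D] (x : ℝ)
    (hx : 0 ≤ x) (h : (if A then 1 else 0) + (if B then 1 else 0) + (if C then 1 else 0) +
      (if D then 1 else 0) + x < 1) : ¬ A ∧ ¬ B ∧ ¬ C ∧ ¬ D ∧ x < 1 := by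
  split_ifs at h <;> first | (exfalso; linarith) | skip
  exact ⟨‹_›, ‹_›, ‹_›, ‹_›, by linarith⟩

lemma fixed_K (c δ c₁ c₂ η : ℝ) (K : ℕ) (hK : 2 ≤ K) (hc₂ : 1 ≤ c₂) (hc : c₂ ≤ c₁) (hη : 0 < η)
    (D1 : c * K + 1 < c₁ * K - 1 - 2 * (η * K))
    (D2 : c₁ * (1 - (1 + (-1 / c₁) / K) ^ K) + η < phi c + δ)
    (D3 : c₂ + η < c)
    (D4 : phi c - δ < c₂ * (1 - (1 + (-1 / c₂) / K) ^ K) - 1 / K - 2 * η) :
    ∀ᶠ n in atTop, deviationProb c δ K n ≤
      4 * (V (1 / (2 * c₁ * K)) / (η * K) ^ 2) + 2 / (η * K) := by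
  classical
  have hK' : (2 : ℝ) ≤ K := by exact_mod_cast hK
  have hK0 : (0 : ℝ) < K := by linarith
  have hc₁ : 0 < c₁ := by linarith
  have hc₂' : 0 < c₂ := by linarith
  set τ₁ := 1 / (c₁ * K) with hτ₁
  set τ₂ := 1 / (c₂ * K) with hτ₂
  have t1 : 0 < τ₁ := by positivity
  have t2 : 0 < τ₂ := by positivity
  have t12 : τ₁ ≤ τ₂ := by rw [hτ₁, hτ₂]; gcongr
  have t2' : τ₂ ≤ 1 / 2 := by
    rw [hτ₂]
    gcongr
    nlinarith
  have t0 : 1 / (2 * c₁ * K) < τ₁ := by
    rw [hτ₁]
    gcongr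
    linarith
  have t0' : 0 < 1 / (2 * c₁ * K) := by positivity
  have s0 : 0 < η * K := by positivity
  have i1 : 1 / τ₁ = c₁ * K := by rw [hτ₁, one_div_one_div]
  have i2 : 1 / τ₂ = c₂ * K := by rw [hτ₂, one_div_one_div]
  have j1 : (1 - (1 - τ₁) ^ K) / τ₁ = c₁ * (1 - (1 + (-1 / c₁) / K) ^ K) * K := by
    have : 1 - τ₁ = 1 + (-1 / c₁) / K := by rw [hτ₁]; field_simp; ring
    rw [this, div_eq_mul_one_div, i1]
    ring
  have j2 : (1 - (1 - τ₂) ^ K) / τ₂ = c₂ * (1 - (1 + (-1 / c₂) / K) ^ K) * K := by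
    have : 1 - τ₂ = 1 + (-1 / c₂) / K := by rw [hτ₂]; field_simp; ring
    rw [this, div_eq_mul_one_div, i2]
    ring
  have E1 : ∀ᶠ n : ℕ in atTop, c * K + 2 + 2 * (η * K) < ((n : ℝ) + 1) / thr τ₁ n :=
    (tendsto_total τ₁ t1).eventually (lt_mem_nhds (by rw [i1]; linarith))
  have E2 : ∀ᶠ n : ℕ in atTop,
      ∑ i ∈ Ico 1 K, q n (thr τ₁ n) i < (phi c + δ) * K - η * K - 1 :=
    (tendsto_partial τ₁ t1 K (by omega)).eventually (gt_mem_nhds (by rw [j1]; nlinarith))
  have E3 : ∀ᶠ n : ℕ in atTop, ((n : ℝ) + 1) / thr τ₂ n < c * K - η * K :=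
    (tendsto_total τ₂ t2).eventually (gt_mem_nhds (by rw [i2]; nlinarith))
  have E4 : ∀ᶠ n : ℕ in atTop,
      (phi c - δ) * K + 2 * (η * K) < ∑ i ∈ Ico 1 K, q n (thr τ₂ n) i := by
    refine (tendsto_partial τ₂ t2 K (by omega)).eventually (lt_mem_nhds ?_)
    rw [j2]
    have h1 := mul_lt_mul_of_pos_right D4 hK0
    have h2 : 1 / (K : ℝ) * K = 1 := by field_simp
    nlinarith
  have E5 : ∀ᶠ n : ℕ in atTop, 1 / (2 * c₁ * K) < ((thr τ₁ n : ℝ) - 1) / n :=
    (tendsto_thr_sub τ₁ t1.le).eventually (lt_mem_nhds t0)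
  have E6 : ∀ᶠ n : ℕ in atTop, 1 / (2 * c₁ * K) < ((thr τ₂ n : ℝ) - 1) / n :=
    (tendsto_thr_sub τ₂ t2.le).eventually (lt_mem_nhds (t0.trans_le t12))
  filter_upwards [E1, E2, E3, E4, E5, E6, eventually_ge_atTop K] with n e1 e2 e3 e4 e5 e6 hn
  set a₁ := thr τ₁ n with ha₁
  set a₂ := thr τ₂ n with ha₂
  set b := thr (1 / 2) n with hb
  have ab1 : a₁ + b ≤ n + 2 := thr_add_le τ₁ t1.le (t12.trans t2') n
  have ab2 : a₂ + b ≤ n + 2 := thr_add_le τ₂ t2.le t2' n
  have b1 : 1 ≤ b := by simp [hb, thr]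
  have hn0 : (0 : ℝ) < n := by
    have : (K : ℝ) ≤ n := by exact_mod_cast hn
    linarith
  have two_le : ∀ a : ℕ, 1 / (2 * c₁ * K) < ((a : ℝ) - 1) / n → 2 ≤ a := by
    intro a ha
    have h1 : 0 < ((a : ℝ) - 1) / n := t0'.trans ha
    have h2 : 0 < (a : ℝ) - 1 := (div_pos_iff_of_pos_right hn0).1 h1
    have h3 : (1 : ℝ) < a := by linarith
    exact_mod_cast h3
  have a1 := two_le a₁ e5
  have a2 := two_le a₂ e6
  have hI1 : Ico 1 (n + 1) ⊆ range (n + 1) := fun i hi => mem_range.2 (mem_Ico.1 hi).2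
  have hI2 : Ico 1 K ⊆ range (n + 1) := fun i hi =>
    mem_range.2 (by have := (mem_Ico.1 hi).2; omega)
  have cb : ∀ (I : Finset ℕ) (a : ℕ), I ⊆ range (n + 1) → a + b ≤ n + 2 →
      1 / (2 * c₁ * K) < ((a : ℝ) - 1) / n →
      E n (fun p => if η * K ≤ |M I a n p - ∑ i ∈ I, q n a i| then 1 else 0) ≤
        V (1 / (2 * c₁ * K)) / (η * K) ^ 2 := by
    intro I a hI hab ha
    refine (cheb I a n hI (two_le a ha) (by omega) _ s0).trans ?_
    have : ((a : ℝ) - 1) / n ≤ 1 := by
      rw [div_le_one hn0]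
      have : (a : ℝ) ≤ n + 1 := by exact_mod_cast (by omega : a ≤ n + 1)
      linarith
    have := V_anti t0' ha.le this
    gcongr
  have mk : E n (fun p => 1 / (η * K) * M (Ico 1 (n + 1)) b n p) ≤ 2 / (η * K) := by
    rw [E_mul, E_M _ _ _ hI1 b1 (by omega), one_div_mul_eq_div]
    have h1 := (total_bounds n b b1 (by omega)).2
    have h2 : ((n : ℝ) + 1) / b ≤ 2 := by
      have hb0 : (0 : ℝ) < b := by exact_mod_cast b1
      rw [div_le_iff₀ hb0]
      have h3 : (1 / 2 : ℝ) * n < b := by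
        rw [hb, thr]
        push_cast
        exact Nat.lt_floor_add_one _
      have h4 : (n : ℝ) < (2 * b : ℕ) := by push_cast; linarith
      have h5 : n + 1 ≤ 2 * b := by exact_mod_cast h4
      exact_mod_cast h5
    gcongr
    linarith
  refine le_trans (deviationProb_le c δ K n (fun p =>
    (if η * K ≤ |M (Ico 1 (n + 1)) a₁ n p - ∑ i ∈ Ico 1 (n + 1), q n a₁ i| then 1 else 0) +
    (if η * K ≤ |M (Ico 1 K) a₁ n p - ∑ i ∈ Ico 1 K, q n a₁ i| then 1 else 0) +
    (if η * K ≤ |M (Ico 1 (n + 1)) a₂ n p - ∑ i ∈ Ico 1 (n + 1), q n a₂ i| then 1 else 0) +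
    (if η * K ≤ |M (Ico 1 K) a₂ n p - ∑ i ∈ Ico 1 K, q n a₂ i| then 1 else 0) +
    1 / (η * K) * M (Ico 1 (n + 1)) b n p) ?_ ?_) ?_
  · intro p
    rw [M_eq_cnt (Ico 1 (n + 1)) b]
    split_ifs <;> positivity
  · intro ω σ hdev
    by_contra hlt
    rw [not_le] at hlt
    have m0 : 0 ≤ 1 / (η * K) * M (Ico 1 (n + 1)) b n (ext ω) := by
      rw [M_eq_cnt]
      positivity
    have g : ¬ η * K ≤ |M (Ico 1 (n + 1)) a₁ n (ext ω) - ∑ i ∈ Ico 1 (n + 1), q n a₁ i| ∧
        ¬ η * K ≤ |M (Ico 1 K) a₁ n (ext ω) - ∑ i ∈ Ico 1 K, q n a₁ i| ∧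
        ¬ η * K ≤ |M (Ico 1 (n + 1)) a₂ n (ext ω) - ∑ i ∈ Ico 1 (n + 1), q n a₂ i| ∧
        ¬ η * K ≤ |M (Ico 1 K) a₂ n (ext ω) - ∑ i ∈ Ico 1 K, q n a₂ i| ∧
        1 / (η * K) * M (Ico 1 (n + 1)) b n (ext ω) < 1 := by
      exact ite_lt _ _ _ _ _ m0 hlt
    obtain ⟨g1, g2, g3, g4, g5⟩ := g
    rw [not_le, abs_lt, M_eq_cnt] at g1 g2 g3 g4
    rw [one_div_mul_eq_div, div_lt_one s0, M_eq_cnt] at g5
    have tb1 := (total_bounds n a₁ (by omega) (by omega)).1
    have tb2 := (total_bounds n a₂ (by omega) (by omega)).2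
    have cK : 0 ≤ c * K := by
      have : 0 ≤ c := by linarith
      positivity
    have m1 : (⌈c * K⌉₊ : ℝ) < c * K + 1 := Nat.ceil_lt_add_one cK
    have m2 : c * K ≤ (⌈c * K⌉₊ : ℝ) := Nat.le_ceil _
    have u := upper_det ω σ ⌈c * K⌉₊ K a₁ b ab1 (by
      have : ((⌈c * K⌉₊ + cnt (Ico 1 (n + 1)) b n (ext ω) : ℕ) : ℝ) ≤
          cnt (Ico 1 (n + 1)) a₁ n (ext ω) := by
        push_cast
        linarith [g1.1]
      exact_mod_cast this)
    have l := lower_det ω σ ⌈c * K⌉₊ K a₂ b ab2 (by omega) (by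
      have : (cnt (Ico 1 (n + 1)) a₂ n (ext ω) : ℝ) < ⌈c * K⌉₊ := by linarith [g3.2]
      exact_mod_cast this)
    have u' : ((mostCentral (tree ω) σ ⌈c * K⌉₊ ∩ {v | v.val < K}).ncard : ℝ) ≤
        1 + cnt (Ico 1 K) a₁ n (ext ω) := by exact_mod_cast u
    have l' : (cnt (Ico 1 K) a₂ n (ext ω) : ℝ) ≤
        (mostCentral (tree ω) σ ⌈c * K⌉₊ ∩ {v | v.val < K}).ncard +
          cnt (Ico 1 (n + 1)) b n (ext ω) := by exact_mod_cast l
    apply absurd hdev
    rw [not_lt, abs_le, ratio, le_sub_iff_add_le, sub_le_iff_le_add, le_div_iff₀ hK0,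
      div_le_iff₀ hK0]
    constructor
    · linarith [g4.1]
    · linarith [g2.2]
  · rw [E_add, E_add, E_add, E_add]
    have := cb _ a₁ hI1 ab1 e5
    have := cb _ a₁ hI2 ab1 e5
    have := cb _ a₂ hI1 ab2 e6
    have := cb _ a₂ hI2 ab2 e6
    linarith

lemma tendsto_bound (c₁ η : ℝ) (hc : 0 < c₁) (hη : 0 < η) :
    Tendsto (fun K : ℕ => 4 * (V (1 / (2 * c₁ * K)) / (η * K) ^ 2) + 2 / (η * K)) atTop (𝓝 0) := by
  have h0 : Tendsto (fun K : ℕ => Real.log K / (K : ℝ)) atTop (𝓝 0) := by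
    have := Real.isLittleO_log_id_atTop.tendsto_div_nhds_zero.comp tendsto_natCast_atTop_atTop
    exact this
  have h1 : Tendsto (fun K : ℕ => (8 * c₁ * (1 + 2 * Real.log (2 * c₁)) / η ^ 2 + 2 / η) / (K : ℝ) +
      16 * c₁ / η ^ 2 * (Real.log K / (K : ℝ))) atTop (𝓝 (0 + 16 * c₁ / η ^ 2 * 0)) :=
    (tendsto_const_div _).add (h0.const_mul _)
  simp only [mul_zero, add_zero] at h1
  refine h1.congr' ?_
  filter_upwards [eventually_gt_atTop 0] with K hK
  have hK0 : (0 : ℝ) < K := by exact_mod_cast hK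
  unfold V
  rw [one_div (2 * c₁ * K), Real.log_inv, Real.log_mul (by positivity) hK0.ne']
  field_simp
  ring

theorem main (c δ : ℝ) (hc : 1 < c) (hδ : 0 < δ) :
    Tendsto (fun K : ℕ => limsup (fun n : ℕ => deviationProb c δ K n) atTop) atTop (𝓝 0) := by
  have hcont : ContinuousAt phi c := by
    unfold phi
    have : c ≠ 0 := by linarith
    fun_prop (disch := assumption)
  obtain ⟨γ, hγ, hγ'⟩ := Metric.continuousAt_iff.1 hcont (δ / 2) (by linarith)
  set g := min (γ / 2) (c - 1) with hg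
  have g0 : 0 < g := lt_min (by linarith) (by linarith)
  have g1 : g < γ := (min_le_left _ _).trans_lt (by linarith)
  have g2 : g ≤ c - 1 := min_le_right _ _
  set η := min (g / 4) (δ / 8) with hη
  have η0 : 0 < η := lt_min (by linarith) (by linarith)
  have η1 : η ≤ g / 4 := min_le_left _ _
  have η2 : η ≤ δ / 8 := min_le_right _ _
  have p1 := hγ' (x := c + g) (by rw [Real.dist_eq]; simpa [abs_of_pos g0] using g1)
  have p2 := hγ' (x := c - g) (by rw [Real.dist_eq]; simpa [abs_of_pos g0] using g1)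
  rw [Real.dist_eq, abs_lt] at p1 p2
  have lim : ∀ d : ℝ, Tendsto (fun K : ℕ => d * (1 - (1 + (-1 / d) / K) ^ K)) atTop
      (𝓝 (phi d)) := fun d =>
    (tendsto_const_nhds.sub (Real.tendsto_one_add_div_pow_exp _)).const_mul d
  have D1 : ∀ᶠ K : ℕ in atTop, c * K + 1 < (c + g) * K - 1 - 2 * (η * K) := by
    filter_upwards [(tendsto_natCast_atTop_atTop (R := ℝ)).eventually_gt_atTop (4 / g)] with K hK
    rw [div_lt_iff₀ g0] at hK
    have : (0 : ℝ) ≤ K := by positivity
    nlinarith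
  have D2 : ∀ᶠ K : ℕ in atTop,
      (c + g) * (1 - (1 + (-1 / (c + g)) / K) ^ K) + η < phi c + δ :=
    ((lim (c + g)).add_const η).eventually (gt_mem_nhds (by linarith [p1.2]))
  have D4 : ∀ᶠ K : ℕ in atTop,
      phi c - δ < (c - g) * (1 - (1 + (-1 / (c - g)) / K) ^ K) - 1 / K - 2 * η :=
    (((lim (c - g)).sub (tendsto_const_div 1)).sub_const (2 * η)).eventually
      (lt_mem_nhds (by linarith [p2.1]))
  refine squeeze_zero' ?_ ?_ (tendsto_bound (c + g) η (by linarith) η0)
  · filter_upwards [D1, D2, D4, eventually_ge_atTop 2] with K d1 d2 d4 hK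
    have := fixed_K c δ (c + g) (c - g) η K hK (by linarith) (by linarith) η0 d1 d2
      (by linarith) d4
    exact le_limsup_of_frequently_le
      (Frequently.of_forall fun n => deviationProb_nonneg c δ K n) ⟨_, this⟩
  · filter_upwards [D1, D2, D4, eventually_ge_atTop 2] with K d1 d2 d4 hK
    have := fixed_K c δ (c + g) (c - g) η K hK (by linarith) (by linarith) η0 d1 d2
      (by linarith) d4
    exact limsup_le_of_le
      (isCoboundedUnder_le_of_le atTop fun n => deviationProb_nonneg c δ K n) this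

end Pool.Agent.MP_6a6beb_pr

end
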